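import Pool.Agent.Y753.SHR.R14
import Pool.Agent.Y753.SHR.R19
import Pool.Agent.Y753.SHR.Star
import Pool.Agent.Y901.SHR.Diag
import Pool.Agent.Y145.SHL.Curt
import Pool.Agent.Y145.SHL.Land
import Pool.Agent.Y686.SHL.Ball
import Pool.Agent.Y975.SHL.Dense

set_option autoImplicit false

/-!
MP_6a632e_nt. The landscape of `log |ζ|` seen from a point chosen with density `|ζ|^β`, near the critical line. Let
`δ(T) → 0`, `δ(T) log T → ∞`. Under the measure `(2δ)^(β²/4) |ζ(1/2 + δ + it)|^β dt / T` the vector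
`log |ζ(1/2 + δ + i(t + a_j δ))| - log |ζ(1/2 + δ + it)|`, `j = 1, ..., n`, converges in law to the normal law with mean
`-(β/4) L(a_j)` and covariance `(L(a_i) + L(a_j) - L(a_i - a_j))/4`, `L(x) = log (1 + x²/4)`, the total mass to `a(β/2)`:
for `0 < β ≤ 4` on `[0, T]`; for all `β ≥ 4 + 4c` of a countable set off one set `E(T)` of measure `o(δ^(4+4c) T)`, on which
`|ζ(1/2 + δ + it)| > δ^(-2-c)` (`c ≥ 0`).
-/

open Filter Topology MeasureTheory ProbabilityTheory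

/-- the arithmetic factor of the moment of order `2k`; `Γ(k+m)/(Γ(k) m!)` is the binomial coefficient of the problem -/
noncomputable def Pool.Agent.Results.MP_6a632e_nt.LocalLandscape.ak (k : ℝ) : ℝ :=
  ∏' p : Nat.Primes, ((1 - 1 / (p : ℝ)) ^ (k ^ 2) *
    ∑' m : ℕ, (Real.Gamma (k + m) / (Real.Gamma k * (m.factorial : ℝ))) ^ 2 / (p : ℝ) ^ m)

/-- the function `L(x) = log (1 + x²/4)` -/
noncomputable def Pool.Agent.Results.MP_6a632e_nt.LocalLandscape.L (x : ℝ) : ℝ := Real.log (1 + x ^ 2 / 4)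

open Pool.Agent.Results.MP_6a632e_nt.LocalLandscape in
/-- `ρ` is the normal law on `ℝ^n` with mean `-(β/4) L(a_j)` and covariance `(L(a_i) + L(a_j) - L(a_i - a_j))/4`: every
linear form `∑ c_j y_j` is normal with the corresponding mean and variance -/
def Pool.Agent.Results.MP_6a632e_nt.LocalLandscape.Law {n : ℕ} (β : ℝ) (a : Fin n → ℝ)
    (ρ : ProbabilityMeasure (Fin n → ℝ)) : Prop :=
  ∀ c : Fin n → ℝ, 0 ≤ ∑ i, ∑ j, c i * c j * ((L (a i) + L (a j) - L (a i - a j)) / 4) ∧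
    (ρ : Measure (Fin n → ℝ)).map (fun y => ∑ j, c j * y j) =
      gaussianReal (∑ j, c j * (-(β / 4) * L (a j)))
        (Real.toNNReal (∑ i, ∑ j, c i * c j * ((L (a i) + L (a j) - L (a i - a j)) / 4)))

/-- the landscape `log |ζ(1/2 + δ + i(t + a_j δ))| - log |ζ(1/2 + δ + it)|` -/
noncomputable def Pool.Agent.Results.MP_6a632e_nt.LocalLandscape.Y {n : ℕ} (δ : ℝ) (a : Fin n → ℝ) (t : ℝ) : Fin n → ℝ :=
  fun j => Real.log ‖riemannZeta (1 / 2 + δ + Complex.I * ((t + a j * δ : ℝ) : ℂ))‖ -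
    Real.log ‖riemannZeta (1 / 2 + δ + Complex.I * t)‖

open Pool.Agent.Results.MP_6a632e_nt.LocalLandscape in
theorem Pool.Agent.Results.MP_6a632e_nt.LocalLandscape.result
    (δ : ℝ → ℝ) (hδ : Tendsto δ atTop (𝓝 0)) (hδL : Tendsto (fun T : ℝ => δ T * Real.log T) atTop atTop) :
    (∀ β : ℝ, 0 < β → β ≤ 4 → 0 < ak (β / 2) ∧ ∀ (n : ℕ) (a : Fin n → ℝ),
      ∃ ρ : ProbabilityMeasure (Fin n → ℝ), Law β a ρ ∧ ∀ F : BoundedContinuousFunction (Fin n → ℝ) ℝ,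
        Tendsto (fun T : ℝ => (2 * δ T) ^ (β ^ 2 / 4) * (1 / T *
          ∫ t in (0:ℝ)..T, ‖riemannZeta (1 / 2 + δ T + Complex.I * t)‖ ^ β * F (Y (δ T) a t))) atTop
          (𝓝 (ak (β / 2) * ∫ y, F y ∂(ρ : Measure (Fin n → ℝ))))) ∧
    (∀ c : ℝ, 0 ≤ c → ∀ S B : Set ℝ, S.Countable → B.Countable → (∀ β ∈ B, 0 < β) →
      ∃ E : ℝ → Set ℝ, (∀ T, MeasurableSet (E T) ∧ ∀ t ∈ E T, 0 ≤ t ∧ t ≤ T ∧
          (δ T) ^ (-(2 + c)) < ‖riemannZeta (1 / 2 + δ T + Complex.I * t)‖) ∧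
        Tendsto (fun T => (volume (E T)).toReal / (T * (δ T) ^ (4 + 4 * c))) atTop (𝓝 0) ∧
        ∀ β ∈ B, (β ≤ 4 ∨ 4 + 4 * c ≤ β) → 0 < ak (β / 2) ∧ ∀ (n : ℕ) (a : Fin n → ℝ), (∀ j, a j ∈ S) →
        ∃ ρ : ProbabilityMeasure (Fin n → ℝ), Law β a ρ ∧ ∀ F : BoundedContinuousFunction (Fin n → ℝ) ℝ,
          Tendsto (fun T : ℝ => (2 * δ T) ^ (β ^ 2 / 4) * (1 / T *
            ∫ t in Set.Icc 0 T \ E T, ‖riemannZeta (1 / 2 + δ T + Complex.I * t)‖ ^ β * F (Y (δ T) a t))) atTop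
            (𝓝 (ak (β / 2) * ∫ y, F y ∂(ρ : Measure (Fin n → ℝ))))) := by
  have e1 : ∀ k : ℝ, 0 < k → ∀ m : ℕ, Real.Gamma (k + m) / (Real.Gamma k * (m.factorial : ℝ)) = Pool.Agent.H306R2.lc k m := by
    intro k hk m
    have hG : Real.Gamma k ≠ 0 := (Real.Gamma_pos_of_pos hk).ne'
    induction m with
    | zero =>
      unfold Pool.Agent.H306R2.lc
      simp [hG]
    | succ m ih =>
      have h1 : Pool.Agent.H306R2.lc k (m + 1) = Pool.Agent.H306R2.lc k m * ((k + m) / ((m : ℝ) + 1)) := by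
        unfold Pool.Agent.H306R2.lc
        rw [Finset.prod_range_succ]
      have hkm : k + (m : ℝ) ≠ 0 := by positivity
      have h2 : Real.Gamma (k + ((m + 1 : ℕ) : ℝ)) = (k + m) * Real.Gamma (k + m) := by
        rw [← Real.Gamma_add_one hkm]
        congr 1
        push_cast
        ring
      have hf : (m.factorial : ℝ) ≠ 0 := by positivity
      rw [h1, ← ih, h2, Nat.factorial_succ]
      push_cast
      field_simp
  have e3 : ∀ k : ℝ, 0 < k → ak k = Pool.Agent.H306R2.aF k := by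
    intro k hk
    unfold ak Pool.Agent.H306R2.aF
    refine tprod_congr fun p => ?_
    simp_rw [e1 k hk, one_div, inv_pow, div_eq_mul_inv]
  have eL : ∀ x : ℝ, Pool.Agent.Y753.SHL.Lg x = L x := fun x => by
    unfold Pool.Agent.Y753.SHL.Lg L
    congr 1; ring
  have eN : ∀ (n : ℕ) (β : ℝ) (a : Fin n → ℝ) (ρ : ProbabilityMeasure (Fin n → ℝ)),
      Pool.Agent.Y753.SHL.Nor (Pool.Agent.Y753.SHL.mL β a) (Pool.Agent.Y753.SHL.CL a) ρ → Law β a ρ := by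
    intro n β a ρ h c
    have h1 := h c
    unfold Pool.Agent.Y753.SHL.qf Pool.Agent.Y753.SHL.lf Pool.Agent.Y753.SHL.mL Pool.Agent.Y753.SHL.CL at h1
    simp_rw [eL] at h1
    exact h1
  have eY : ∀ (n : ℕ) (x : ℝ) (a : Fin n → ℝ) (t : ℝ), Pool.Agent.Y753.SHL.Yl x a t = Y x a t := by
    intro n x a t
    unfold Pool.Agent.Y753.SHL.Yl Y Pool.Agent.Y753.SHR.za
    funext j
    have h1 : (1 / 2 + x + ((t + a j * x : ℝ) : ℂ) * Complex.I : ℂ) = 1 / 2 + x + Complex.I * ((t + a j * x : ℝ) : ℂ) := by ring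
    have h2 : (1 / 2 + x + ((t + 0 * x : ℝ) : ℂ) * Complex.I : ℂ) = 1 / 2 + x + Complex.I * t := by push_cast; ring
    rw [h1, h2]
  have eZ : ∀ x t : ℝ, Pool.Agent.Y753.SHR.za x 0 t = ‖riemannZeta (1 / 2 + x + Complex.I * t)‖ := by
    intro x t
    unfold Pool.Agent.Y753.SHR.za
    have h2 : (1 / 2 + x + ((t + 0 * x : ℝ) : ℂ) * Complex.I : ℂ) = 1 / 2 + x + Complex.I * t := by push_cast; ring
    rw [h2]
  have hDE := Pool.Agent.Y975.SHL.dense
  have hLA := Pool.Agent.Y145.SHL.land (Pool.Agent.Y686.SHL.ball Pool.Agent.Y145.SHL.curt)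
  constructor
  · intro β hβ hβ4
    rw [e3 _ (by positivity)]
    refine ⟨Pool.Agent.H306R2.aF_pos (by positivity), fun n a => ?_⟩
    obtain ⟨ρ, hρ, hF⟩ := Pool.Agent.Y753.SHL.land_full Pool.Agent.Y901.SHR.done Pool.Agent.Y753.SHR.star hDE hLA hδ hδL hβ hβ4 a
    refine ⟨ρ, eN n β a ρ hρ, fun F => ?_⟩
    refine (hF F).congr' ?_
    filter_upwards [eventually_gt_atTop 0] with T hT
    rw [integral_Icc_eq_integral_Ioc, ← intervalIntegral.integral_of_le hT.le]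
    simp_rw [eY, eZ]
    have h1 : (β / 2) ^ 2 = β ^ 2 / 4 := by ring
    rw [h1]; ring
  · intro c hc S B hS hB hB0
    obtain ⟨E, hE, hvol, hm⟩ := Pool.Agent.Y753.SHR.land_small Pool.Agent.Y901.SHR.done Pool.Agent.Y753.SHR.star hDE hLA hδ hδL hc hS hB hB0
    refine ⟨E, fun T => ⟨(hE T).1, fun t ht => ⟨((hE T).2.1 ht).1, ((hE T).2.1 ht).2, ?_⟩⟩, hvol, fun β hβ hcase => ?_⟩
    · have h1 := (hE T).2.2 t ht
      rwa [eZ] at h1
    have hβ0 := hB0 β hβ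
    rw [e3 _ (by positivity)]
    refine ⟨Pool.Agent.H306R2.aF_pos (by positivity), fun n a ha => ?_⟩
    obtain ⟨ρ, hρ, hF⟩ := hm β hβ hcase n a ha
    refine ⟨ρ, eN n β a ρ hρ, fun F => ?_⟩
    refine (hF F).congr fun T => ?_
    simp_rw [eY, eZ]
    have h1 : (β / 2) ^ 2 = β ^ 2 / 4 := by ring
    rw [h1]; ring
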