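import Pool.Agent.Y753.SHR.R22

set_option autoImplicit false

/-!
MP_6a632e_nt. Near the critical line every power `ζ^k` is, off a small set of large values, equal in mean square to its
Dirichlet polynomial. Let `δ(T) → 0`, `δ(T) log T → ∞` and `c ≥ 0`. There are sets `E(T) ⊆ [0, T]` of measure
`o(δ^(4+4c) T)`, on which `|ζ(1/2 + δ + it)| > δ^(-2-c)`, such that for every `k ≥ 1` with `k ≤ 2` or `k ≥ 2 + 2c` (every
`k`, if `c ≤ 1/2`) and every length `N(T) ≤ T` with `δ(T) log N(T) → ∞` the mean square over `[0, T] \ E(T)` of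
`ζ(s)^k - Σ_{n ≤ N(T)} d_k(n) n^{-s}`, `s = 1/2 + δ(T) + it`, is `o((2δ(T))^{-k²})`. For `k ≤ 2` the mean square may be
taken over `[0, T]`.
-/

open Filter Topology MeasureTheory

theorem Pool.Agent.Results.MP_6a632e_nt.PowersMeanSquare.result
    (δ : ℝ → ℝ) (hδ : Tendsto δ atTop (𝓝 0)) (hδL : Tendsto (fun T : ℝ => δ T * Real.log T) atTop atTop)
    (c : ℝ) (hc : 0 ≤ c) :
    ∃ E : ℝ → Set ℝ, (∀ T, MeasurableSet (E T) ∧ ∀ t ∈ E T, 0 ≤ t ∧ t ≤ T ∧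
        (δ T) ^ (-(2 + c)) < ‖riemannZeta ((1 / 2 + δ T : ℝ) + t * Complex.I)‖) ∧
      Tendsto (fun T => (volume (E T)).toReal / (T * (δ T) ^ (4 + 4 * c))) atTop (𝓝 0) ∧
      ∀ k : ℕ, 0 < k → ∀ N : ℝ → ℕ, (∀ᶠ T : ℝ in atTop, (N T : ℝ) ≤ T) →
        Tendsto (fun T : ℝ => δ T * Real.log (N T)) atTop atTop →
        ((k ≤ 2 ∨ 2 + 2 * c ≤ k) → Tendsto (fun T : ℝ => (2 * δ T) ^ (k ^ 2) * (1 / T *
          ∫ t in Set.Icc 0 T \ E T, ‖riemannZeta ((1 / 2 + δ T : ℝ) + t * Complex.I) ^ k -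
            ∑ n ∈ Finset.Icc 1 (N T), ((ArithmeticFunction.zeta ^ k) n : ℂ) *
              (n : ℂ) ^ (-(((1 / 2 + δ T : ℝ) : ℂ) + t * Complex.I))‖ ^ 2)) atTop (𝓝 0)) ∧
        (k ≤ 2 → Tendsto (fun T : ℝ => (2 * δ T) ^ (k ^ 2) * (1 / T *
          ∫ t in Set.Icc 0 T, ‖riemannZeta ((1 / 2 + δ T : ℝ) + t * Complex.I) ^ k -
            ∑ n ∈ Finset.Icc 1 (N T), ((ArithmeticFunction.zeta ^ k) n : ℂ) *
              (n : ℂ) ^ (-(((1 / 2 + δ T : ℝ) : ℂ) + t * Complex.I))‖ ^ 2)) atTop (𝓝 0)) := by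
  obtain ⟨E, hE, hvol, hm⟩ := Pool.Agent.Y753.SHR.pow_small hδ hδL hc
  have e4 : ∀ (k : ℕ) (x t : ℝ) (M : ℕ), ‖riemannZeta ((1 / 2 + x : ℝ) + t * Complex.I) ^ k -
      ∑ n ∈ Finset.Icc 1 M, ((ArithmeticFunction.zeta ^ k) n : ℂ) * (n : ℂ) ^ (-(((1 / 2 + x : ℝ) : ℂ) + t * Complex.I))‖ ^ 2 =
      ‖riemannZeta (1 / 2 + x + t * Complex.I) ^ k - Pool.Agent.Y755.es (1 / 2 + x + t * Complex.I) (Pool.Agent.Y753.NL.DN k M)‖ ^ 2 := by
    intro k x t M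
    rw [Pool.Agent.Y753.NL.es_DN]
    have e3 : ((1 / 2 + x : ℝ) : ℂ) = 1 / 2 + (x : ℂ) := by push_cast; ring
    rw [e3]
    congr 3
    refine Finset.sum_congr rfl fun n _ => ?_
    rw [Pool.Agent.Y753.NL.dv_nat]
    push_cast
    rfl
  have e5 : ∀ (k : ℕ) (x : ℝ), (2 * x) ^ ((k:ℝ) ^ 2) = (2 * x) ^ (k ^ 2) := fun k x => by
    rw [← Nat.cast_pow, Real.rpow_natCast]
  refine ⟨E, fun T => ⟨(hE T).1, fun t ht => ⟨((hE T).2.1 ht).1, ((hE T).2.1 ht).2, ?_⟩⟩, hvol, fun k hk N hN hN' => ?_⟩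
  · have h1 := (hE T).2.2 t ht
    rwa [← Pool.Agent.Y753.SHR.zn_za] at h1
  · obtain ⟨h1, h2⟩ := hm k hk N hN hN'
    simp_rw [e4]
    refine ⟨fun hcase => ?_, fun hk2 => ?_⟩
    · refine (h1 (by
        rcases hcase with h | h
        · left; exact_mod_cast h
        · right; linarith)).congr fun T => ?_
      rw [e5]
      ring
    · refine (h2 (by exact_mod_cast hk2)).congr fun T => ?_
      rw [e5]
      ring
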